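import Pool.Agent.Helper83.PT.St7

set_option autoImplicit false

/-! Module DT of project PT: one-way automata, all words. -/

namespace Pool.Agent.Helper83.PT.N24

open Pool.Agent.Helper73.DC
open Finset
open scoped Classical

theorem step_still {α : Type} (M : MPDA α) (w : List α) (t : ℕ) (q q' : M.Q) (p : Fin M.k → ℕ) (d : Fin M.k → Mv) (Z : M.Γ)
    (c : Bool × M.Q × (Fin M.k → ℕ) × List M.Γ)
    (h : M.tr q Z (fun j => symAt w (p j)) = some (q', d, [Z])) (hr : TRun M w t (false, q', nps w d p, [Z]) c) :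
    TRun M w t (false, q, p, [Z]) c := by
  have h1 : fl [Z] false = false := by simp [fl]
  have h2 : tu [Z] false = 0 := by simp [tu]
  have h3 := TRun.step t false q q' p d Z [] [Z] c h (by rw [h1]; exact hr)
  rw [h2, Nat.zero_add] at h3
  exact h3

theorem acc_iff {α : Type} [Fintype α] (h1 : StDP1) (h2 : StDP2) (M : DPDA α) (w : List α) (t : ℕ) :
    AccTurns (mpd M) w t ↔ DAccTurns M w t := by
  constructor
  · rintro ⟨t', ht', u, ⟨⟨q, o⟩, e⟩, p, s, hacc, hrun⟩
    obtain ⟨ha, ho, he⟩ : M.acc q ∧ o = none ∧ e = true := hacc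
    subst ho he
    obtain ⟨v', hc, hd⟩ := h1 M w t' false M.q0 none false (fun _ => 0) w [M.z0] u q none true p s
      ⟨rfl, Nat.zero_le _, fun h => absurd h (by decide)⟩ hrun
    have hc' : v' = w.drop ((p (0 : Fin 1) : ℕ) - 1) ∧ (p (0 : Fin 1) : ℕ) ≤ w.length + 1 ∧
        (true = true → (p (0 : Fin 1) : ℕ) = w.length + 1) := hc
    obtain ⟨hv, _, hp⟩ := hc'
    rw [hp rfl, Nat.add_sub_cancel, List.drop_length] at hv
    subst hv
    exact ⟨t', ht', u, q, s, ha, hd⟩
  · rintro ⟨t', ht', u, q, s, ha, hrun⟩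
    obtain ⟨p1, hp1, hp⟩ : ∃ p1 : Fin 1 → ℕ, p1 = nps w (fun _ => Mv.R) (fun _ => 0) ∧ p1 0 = 1 := by
      refine ⟨_, rfl, ?_⟩
      show min (0 + 1) (w.length + 1) = 1
      omega
    have hmain : ∃ p', TRun (mpd M) w t' (false, ((M.q0, none), false), p1, [M.z0]) (u, ((q, none), true), p', s) := by
      rcases w with _ | ⟨a, w⟩
      · obtain ⟨p2, hp2, hp20⟩ : ∃ p2 : Fin 1 → ℕ, p2 = nps ([] : List α) (fun _ => Mv.S) p1 ∧ p2 0 = 1 := by
          refine ⟨_, rfl, ?_⟩
          show min (p1 0) (0 + 1) = 1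
          omega
        have e1 : 1 ≤ p2 0 := by omega
        have e2 : p2 0 ≤ ([] : List α).length + 1 := by rw [hp20]; exact le_rfl
        have e3 : ([] : List α) = ([] : List α).drop (p2 0 - 1) := by simp
        have e4 : true = true ↔ p2 0 = ([] : List α).length + 1 := by rw [hp20]; exact ⟨fun _ => rfl, fun _ => rfl⟩
        obtain ⟨p', h⟩ := h2 M [] t' false M.q0 [] [M.z0] u q s hrun true p2 e1 e2 e3 e4
        rw [hp2] at h
        refine ⟨p', step_still (mpd M) [] t' _ _ p1 (fun _ => Mv.S) M.z0 _ ?_ h⟩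
        have hx : symAt ([] : List α) (p1 0) = Sym.rm := by
          rw [hp]
          rfl
        show (match symAt ([] : List α) (p1 0) with
          | Sym.lm => some (((M.q0, none), false), (fun _ => Mv.R : Fin 1 → Mv), [M.z0])
          | Sym.rm =>
            if (false : Bool) = false then some (((M.q0, none), true), (fun _ => Mv.S : Fin 1 → Mv), [M.z0])
            else match M.ep M.q0 M.z0 with
              | none => none
              | some (q', γ) => some (((q', none), true), (fun _ => Mv.S : Fin 1 → Mv), γ)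
          | Sym.ch a =>
            match M.ep M.q0 M.z0 with
            | some (q', γ) => some (((q', none), false), (fun _ => Mv.S : Fin 1 → Mv), γ)
            | none => match M.tr M.q0 M.z0 a with
              | none => none
              | some _ => some (((M.q0, some a), false), (fun _ => Mv.R : Fin 1 → Mv), [M.z0])) = _
        rw [hx]
        rfl
      · have e1 : 1 ≤ p1 0 := by omega
        have e2 : p1 0 ≤ (a :: w).length + 1 := by rw [hp]; simp
        have e3 : a :: w = (a :: w).drop (p1 0 - 1) := by rw [hp]; simp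
        have e4 : false = true ↔ p1 0 = (a :: w).length + 1 := by rw [hp]; simp
        exact h2 M (a :: w) t' false M.q0 (a :: w) [M.z0] u q s hrun false p1 e1 e2 e3 e4
    obtain ⟨p', h⟩ := hmain
    refine ⟨t', ht', u, ((q, none), true), p', s, ⟨ha, rfl, rfl⟩, ?_⟩
    rw [hp1] at h
    exact step_still (mpd M) w t' _ _ _ (fun _ => Mv.R) M.z0 _ rfl h

theorem mDT : StMT → StDP1 → StDP2 → StDT := by
  intro hMT h1 h2 α _ M c
  have h := hMT (mpd M) c
  have e : {w : List α | DAccTurns M w (c * Nat.log 2 w.length ^ c + c)} =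
      {w : List α | AccTurns (mpd M) w (c * Nat.log 2 w.length ^ c + c)} := by
    ext w
    exact (acc_iff h1 h2 M w _).symm
  rw [e]
  exact h

end Pool.Agent.Helper83.PT.N24
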