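import Pool.Agent.Helper83.PT.St6

set_option autoImplicit false

/-! Module G7 of project PT: the theorem from the abstract theorem. -/

namespace Pool.Agent.Helper83.PT.N24

open Pool.Agent.Helper73.DC
open Finset
open scoped Classical

theorem run_lift {α : Type} (M : MPDA α) (w : List α) : ∀ (l : ℕ) (q : M.Q) (p : Fin M.k → ℕ) (s : List M.Γ)
    (q' : M.Q) (p' : Fin M.k → ℕ) (s' : List M.Γ) (u : Bool), M.Run w l (q, p, s) (q', p', s') →
    ∃ u' : Bool, (aug M).Run w l ((q, u), p, s) ((q', u'), p', s') := by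
  intro l
  induction l with
  | zero =>
    intro q p s q' p' s' u h
    have h' : (q, p, s) = (q', p', s') := h
    obtain ⟨rfl, h2⟩ := Prod.mk.inj h'
    obtain ⟨rfl, rfl⟩ := Prod.mk.inj h2
    exact ⟨u, rfl⟩
  | succ l ih =>
    intro q p s q' p' s' u h
    obtain ⟨c', hs, hr⟩ := h
    cases hs with
    | mk _ q1 _ d Z s1 γ htr =>
      obtain ⟨u', hu⟩ := ih q1 (nps w d p) (γ ++ s1) q' p' s' (fl γ u) hr
      refine ⟨u', ((q1, fl γ u), nps w d p, γ ++ s1), ?_, hu⟩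
      refine MPDA.Step.mk (M := aug M) (w := w) (q, u) (q1, fl γ u) p d Z s1 γ ?_
      show (match M.tr q Z (fun j => symAt w (p j)) with
        | none => none
        | some (q', d, γ) => some ((q', fl γ u), d, γ)) = some ((q1, fl γ u), d, γ)
      rw [htr]

theorem trunF_run {α : Type} (M : MPDA α) (w : List α) {t : ℕ}
    {a b : Bool × M.Q × (Fin M.k → ℕ) × List M.Γ} (h : TRunF M w t a b) : ∃ l, M.Run w l a.2 b.2 := by
  induction h with
  | refl c => exact ⟨0, rfl⟩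
  | step t u q q' p d Z s γ c hna htr _ ih =>
    obtain ⟨l, hl⟩ := ih
    exact ⟨l + 1, _, MPDA.Step.mk q q' p d Z s γ htr, hl⟩

theorem ev_reweight {lf cl : ℕ → ℕ} {rs : ℕ → ℕ → ℕ} {wt : ℕ → ℕ} (wt' : ℕ → ℕ) {x r m n : ℕ}
    (h : Ev lf cl rs wt x r m n) : ∃ m', Ev lf cl rs wt' x r m' n := by
  induction h with
  | leaf x r h => exact ⟨_, Ev.leaf x r h⟩
  | node x r1 m1 n1 r2 m2 n2 h _ _ ih1 ih2 =>
    obtain ⟨a, ha⟩ := ih1
    obtain ⟨b, hb⟩ := ih2
    exact ⟨_, Ev.node x r1 a n1 r2 b n2 h ha hb⟩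

theorem turns_le {α : Type} (M : MPDA α) (w : List α) {m : ℕ}
    {a b : Bool × M.Q × (Fin M.k → ℕ) × List M.Γ} (h : TRunF M w m a b) :
    ∀ (t : ℕ) (b' : Bool × M.Q × (Fin M.k → ℕ) × List M.Γ), M.acc b'.2.1 → TRun M w t a b' → m ≤ t := by
  induction h with
  | refl c => exact fun t _ _ _ => Nat.zero_le t
  | step m u q q' p d Z s γ c hna htr _ ih =>
    intro t b' hb hr
    cases hr with
    | refl _ => exact absurd hb hna
    | step t' _ _ q1 _ d1 _ _ γ1 _ htr1 hr1 =>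
      rw [htr] at htr1
      obtain ⟨h1, h2⟩ := Prod.mk.inj (Option.some.inj htr1)
      obtain ⟨h2, h3⟩ := Prod.mk.inj h2
      subst h1 h2 h3
      exact Nat.add_le_add_left (ih t' b' hb hr1) _

theorem pcd_zero (n : ℕ) {k : ℕ} : pcd n (fun _ : Fin k => 0) = 0 := by
  unfold pcd
  apply Finset.sum_eq_zero
  intro j _
  exact Nat.zero_mul _

theorem mG7 : StABS → StG1 → StG2 → StG3 → Pool.Agent.Helper73.DC.StG5 → StG6 → StW → StG4 → StRK → StG7 := by
  intro hABS h1 h2 _ h5 _ _ h4 hRK α _ M c hM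
  obtain ⟨T, K, num, qn, hd⟩ := h2 (aug M)
  obtain ⟨hcl, hrs, hlf, hc, e1, hb⟩ := h1 (α := α) T
  have hz : ([M.z0] : List M.Γ).length ≤ K := hd.hK
  have hnode : ∀ w : List α, num (M.q0, false) [M.z0] * (w.length + 2) ^ T.k =
      mnd (aug M) num w.length (M.q0, false) [M.z0] (fun _ => 0) := by
    intro w
    unfold mnd
    rw [pcd_zero, hd.hk]
    exact (Nat.add_zero _).symm
  have hfwd : ∀ (w : List α), w ∈ M.lang → ∃ m k,
      Ev (T.lf w) (T.cl w) (T.rs w) (wtT M T K num w) (num (M.q0, false) [M.z0] * (w.length + 2) ^ T.k)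
        0 m k := by
    rintro w ⟨t, l, hl, q, p, s, hq, hr⟩
    obtain ⟨u', hu⟩ := run_lift M w l _ _ _ _ _ _ false hr
    obtain ⟨m, k, _, hE⟩ := (h5 (aug M) T K num qn hd w l (M.q0, false) [M.z0] (fun _ => 0) hz
      (fun _ => Nat.zero_le _)).1 (q, u') p s hq hu
    rw [← hnode] at hE
    obtain ⟨m', hm'⟩ := ev_reweight (wtT M T K num w) hE
    exact ⟨m', k, hm'⟩
  have hbwd : ∀ (w : List α) (m k : ℕ),
      Ev (T.lf w) (T.cl w) (T.rs w) (wtT M T K num w) (num (M.q0, false) [M.z0] * (w.length + 2) ^ T.k)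
        0 m k → w ∈ M.lang ∧ ∃ (u' : Bool) (q' : M.Q) (p' : Fin M.k → ℕ) (s' : List M.Γ), M.acc q' ∧
          TRunF M w m (false, M.q0, fun _ => 0, [M.z0]) (u', q', p', s') := by
    intro w m k hE
    obtain ⟨u', q', p', s', hq, hr⟩ := (h4 M T K num qn hd w _ 0 m k hE M.q0 false [M.z0] (fun _ => 0) hz
      (fun _ => Nat.zero_le _) (hnode w)).1 rfl []
    obtain ⟨l, hl⟩ := trunF_run M w hr
    exact ⟨⟨l, l, le_rfl, q', p', s', hq, hl⟩, u', q', p', s', hq, hr⟩
  have hpow : ∀ n : ℕ, (n + 2) ^ e1 ≤ (n + 2) ^ e1 := fun n => le_rfl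
  refine hABS M.lang (fun w x => T.cl w x) (fun w x => T.lf w x) (fun w => wtT M T K num w)
    (fun w x r => T.rs w x r) (fun w => num (M.q0, false) [M.z0] * (w.length + 2) ^ T.k)
    e1 c hcl hrs hlf (hc _) ?_ ?_ ?_ ?_ ?_ ?_ ?_
  · exact fun w x => (hb w x 0).1
  · exact fun w x r => (hb w x r).2.1
  · exact fun w x => (hb w x 0).2.2.1
  · intro w
    have h7 : num (M.q0, false) [M.z0] * (w.length + 2) ^ T.k < T.ac w.length := by
      unfold MTab.ac MTab.P
      exact Nat.mul_lt_mul_of_pos_right (hd.hnum _ _ hz) (by positivity)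
    exact h7.trans (hb w 0 0).2.2.2
  · exact fun w x r n h => hRK M T K num qn hd w x r n h
  · intro w
    exact ⟨fun hw => hfwd w hw, fun ⟨m, k, hE⟩ => (hbwd w m k hE).1⟩
  · intro w m n hE
    obtain ⟨hw, u', q', p', s', hq, hr⟩ := hbwd w m n hE
    obtain ⟨t', ht', u, q, p, s, hacc, hrun⟩ := hM w hw
    exact (turns_le M w hr t' _ hacc hrun).trans ht'

end Pool.Agent.Helper83.PT.N24
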